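import Pool.Agent.TBP.StmtsA

set_option autoImplicit false

/-!
Row STC of squad TBP (MP_ba39b0_nt): the primes of the cofactor.
-/

namespace Pool.Agent.TBP.H34

open Finset Pool.Agent.TBP

theorem lw_anti (J : ℕ) {i j : ℕ} (h : i ≤ j) : lw J j ≤ lw J i := by
  unfold lw
  refine Nat.pow_le_pow_right (by norm_num) ?_
  refine Nat.mul_le_mul_left _ ?_
  exact Nat.pow_le_pow_right (by norm_num) (by omega)

theorem kp_mono {θ : ℝ} (hθ : 0 < θ) {i j : ℕ} (h : i ≤ j) : kp θ i ≤ kp θ j := by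
  unfold kp
  refine Nat.floor_le_floor ?_
  refine Real.rpow_le_rpow_of_exponent_le (by norm_num) ?_
  exact mul_le_mul_of_nonneg_left (by exact_mod_cast h) hθ.le

theorem stc : StcStmt := by
  intro θ J T j k t p σ hθ hσ hJ hjJ hk hkj ht hp hdvd
  set g := Nat.gcd (WW J) k with hg
  have hg0 : 0 < g := Nat.gcd_pos_of_pos_right _ (by omega)
  obtain ⟨W', hW'⟩ : g ∣ WW J := Nat.gcd_dvd_left _ _
  obtain ⟨k', hk'⟩ : g ∣ k := Nat.gcd_dvd_right _ _
  have hcop : Nat.Coprime W' k' := by
    have h1 := Nat.coprime_div_gcd_div_gcd (m := WW J) (n := k) (by rw [← hg]; exact hg0)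
    rw [← hg] at h1
    have e1 : WW J / g = W' := by
      rw [hW', Nat.mul_div_cancel_left _ hg0]
    have e2 : k / g = k' := by
      conv_lhs => rw [hk']
      rw [Nat.mul_div_cancel_left _ hg0]
    rwa [e1, e2] at h1
  have hfac : (WW J : ℤ) * t + σ * k = (g : ℤ) * ((W' : ℤ) * t + σ * k') := by
    have e1 : (WW J : ℤ) = (g : ℤ) * W' := by exact_mod_cast hW'
    have e2 : (k : ℤ) = (g : ℤ) * k' := by exact_mod_cast hk'
    rw [e1, e2]
    ring
  have hlf : lf J σ k t / g = ((W' : ℤ) * t + σ * k').natAbs := by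
    unfold lf
    rw [hfac, Int.natAbs_mul, Int.natAbs_natCast, Nat.mul_div_cancel_left _ hg0]
  rw [hlf] at hdvd
  have hdz : (p : ℤ) ∣ (W' : ℤ) * t + σ * k' := Int.natCast_dvd.mpr hdvd
  by_cases hpJ : p ≤ 2 ^ J
  · right
    refine ⟨hpJ, ?_⟩
    by_contra hnk
    have hpP : p ∣ primorial (2 ^ J) := by
      unfold primorial
      refine Finset.dvd_prod_of_mem _ ?_
      rw [Finset.mem_filter, Finset.mem_range]
      exact ⟨by omega, hp⟩
    have hpW : p ^ (J + 1) ∣ WW J := by
      unfold WW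
      exact pow_dvd_pow_of_dvd hpP _
    have hng : ¬ p ^ (J + 1) ∣ g := fun h => hnk (h.trans (Nat.gcd_dvd_right _ _))
    have hpW' : p ∣ W' := by
      by_contra hn
      have hc : Nat.Coprime (p ^ (J + 1)) W' :=
        Nat.Coprime.pow_left _ ((Nat.Prime.coprime_iff_not_dvd hp).mpr hn)
      rw [hW'] at hpW
      exact hng (hc.dvd_of_dvd_mul_right hpW)
    have h1 : (p : ℤ) ∣ (W' : ℤ) * t := Dvd.dvd.mul_right (by exact_mod_cast hpW') _
    have h2 : (p : ℤ) ∣ σ * k' := (dvd_add_right h1).mp hdz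
    have h3 : (p : ℤ) ∣ (k' : ℤ) := by
      rcases hσ with h | h
      · rw [h, one_mul] at h2
        exact h2
      · rw [h, neg_one_mul] at h2
        exact (dvd_neg.mp h2)
    have h4 : p ∣ k' := by exact_mod_cast h3
    have h5 : p ∣ 1 := by
      have := Nat.dvd_gcd hpW' h4
      rwa [hcop] at this
    exact hp.one_lt.ne' (Nat.dvd_one.mp h5)
  · left
    by_contra hle
    push Not at hle hpJ
    have hJJ : lw J J < p := by
      unfold lw
      simpa using hpJ
    have hex : ∃ i, lw J i < p := ⟨J, hJJ⟩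
    classical
    set m := Nat.find hex with hm
    have hm1 : lw J m < p := Nat.find_spec hex
    have hmJ : m ≤ J := Nat.find_min' hex hJJ
    have hmj : j < m := by
      by_contra hn
      push Not at hn
      have := lw_anti J hn
      omega
    obtain ⟨i, hi⟩ : ∃ i, m = i + 1 := ⟨m - 1, by omega⟩
    have hpi : p ≤ lw J i := by
      have := Nat.find_min hex (m := i) (by omega)
      omega
    have hpb : p ∈ pb J i := by
      unfold pb
      rw [Finset.mem_filter, Finset.mem_Ioc]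
      exact ⟨⟨by rw [← hi]; exact hm1, hpi⟩, hp⟩
    have hki : k ≤ kp θ i := le_trans (hkj (by omega)) (kp_mono hθ (by omega))
    unfold SS at ht
    rw [Finset.mem_filter] at ht
    refine ht.2 i (Finset.mem_range.mpr (by omega)) p hpb k (Finset.mem_Icc.mpr ⟨hk, hki⟩) ?_
    rw [hfac]
    exact Dvd.dvd.mul_left hdz _

end Pool.Agent.TBP.H34
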